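import Mathlib
import Pool.Agent.H.MP_7b7e09_gt.A

set_option autoImplicit false

namespace Pool.Agent.Results.MP_7b7e09_gt.All

open Set Cardinal Pool.Agent.H.MP_9c4169_gt Pool.Agent.H.MP_7b7e09_gt

theorem result :
    (Pol (Icc (0 : ℝ) 1) ∧ ¬ S1 (Om (Op (Icc (0 : ℝ) 1))) (Om (Op (Icc (0 : ℝ) 1)))) ∧
      IsLeast {c | ∃ X : Set ℝ, ¬ Pol X ∧ #X = c} (min dd uu) :=
  ⟨⟨cpt _, nrot⟩, non⟩

end Pool.Agent.Results.MP_7b7e09_gt.All
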